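import Pool.Agent.Helper49.LT.StC

/-!
# Project LT (MP_b21509_co), module QU2: truncated power series in two variables
-/

open MeasureTheory Set Filter Metric
open scoped Topology

namespace Pool.Agent.Helper47.LT

open Helper49.LT Helper97.CB Asymptotics

/-- truncated power series in `k`, `s`, even in `s`: the coefficients of
`1, k, k², s², k³, k s², k⁴, k² s², s⁴` -/
@[ext] structure T9 where
  a0 : ℝ
  a1 : ℝ
  a2 : ℝ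
  a3 : ℝ
  a4 : ℝ
  a5 : ℝ
  a6 : ℝ
  a7 : ℝ
  a8 : ℝ

/-- addition -/
def T9.add (A B : T9) : T9 :=
  ⟨A.a0 + B.a0, A.a1 + B.a1, A.a2 + B.a2, A.a3 + B.a3, A.a4 + B.a4, A.a5 + B.a5, A.a6 + B.a6, A.a7 + B.a7,
    A.a8 + B.a8⟩

/-- scalar multiples -/
def T9.smul (c : ℝ) (A : T9) : T9 :=
  ⟨c * A.a0, c * A.a1, c * A.a2, c * A.a3, c * A.a4, c * A.a5, c * A.a6, c * A.a7, c * A.a8⟩

/-- truncated product -/
def T9.mul (A B : T9) : T9 :=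
  ⟨A.a0 * B.a0,
   A.a0 * B.a1 + A.a1 * B.a0,
   A.a0 * B.a2 + A.a1 * B.a1 + A.a2 * B.a0,
   A.a0 * B.a3 + A.a3 * B.a0,
   A.a0 * B.a4 + A.a1 * B.a2 + A.a2 * B.a1 + A.a4 * B.a0,
   A.a0 * B.a5 + A.a1 * B.a3 + A.a3 * B.a1 + A.a5 * B.a0,
   A.a0 * B.a6 + A.a1 * B.a4 + A.a2 * B.a2 + A.a4 * B.a1 + A.a6 * B.a0,
   A.a0 * B.a7 + A.a1 * B.a5 + A.a2 * B.a3 + A.a3 * B.a2 + A.a5 * B.a1 + A.a7 * B.a0,
   A.a0 * B.a8 + A.a3 * B.a3 + A.a8 * B.a0⟩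

/-- the parts of degree `0, 1, 2, 3, 4` -/
def T9.g1 (A : T9) (p : ℝ × ℝ) : ℝ := A.a1 * p.1
/-- degree 2 -/
def T9.g2 (A : T9) (p : ℝ × ℝ) : ℝ := A.a2 * p.1 ^ 2 + A.a3 * p.2 ^ 2
/-- degree 3 -/
def T9.g3 (A : T9) (p : ℝ × ℝ) : ℝ := A.a4 * p.1 ^ 3 + A.a5 * (p.1 * p.2 ^ 2)
/-- degree 4 -/
def T9.g4 (A : T9) (p : ℝ × ℝ) : ℝ := A.a6 * p.1 ^ 4 + A.a7 * (p.1 ^ 2 * p.2 ^ 2) + A.a8 * p.2 ^ 4

/-- evaluation -/
def T9.ev (A : T9) (p : ℝ × ℝ) : ℝ := A.a0 + A.g1 p + A.g2 p + A.g3 p + A.g4 p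

/-- equality up to the order 5 -/
def Ap (f : ℝ × ℝ → ℝ) (A : T9) : Prop := (fun p => f p - A.ev p) =O[𝓝 (0 : ℝ × ℝ)] (fun p => ‖p‖ ^ 5)

theorem o_fst : (fun p : ℝ × ℝ => p.1) =O[𝓝 (0 : ℝ × ℝ)] (fun p => ‖p‖) := by
  refine IsBigO.of_bound 1 (Eventually.of_forall fun p => ?_)
  rw [one_mul, norm_norm]
  exact norm_fst_le p

theorem o_snd : (fun p : ℝ × ℝ => p.2) =O[𝓝 (0 : ℝ × ℝ)] (fun p => ‖p‖) := by
  refine IsBigO.of_bound 1 (Eventually.of_forall fun p => ?_)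
  rw [one_mul, norm_norm]
  exact norm_snd_le p

theorem o_mono (i j : ℕ) : (fun p : ℝ × ℝ => p.1 ^ i * p.2 ^ j) =O[𝓝 (0 : ℝ × ℝ)] (fun p => ‖p‖ ^ (i + j)) := by
  have h := (o_fst.pow i).mul (o_snd.pow j)
  refine h.congr_right fun p => ?_
  rw [pow_add]

theorem o_weak {n m : ℕ} (h : m ≤ n) :
    (fun p : ℝ × ℝ => ‖p‖ ^ n) =O[𝓝 (0 : ℝ × ℝ)] (fun p => ‖p‖ ^ m) := by
  refine IsBigO.of_bound 1 ?_
  filter_upwards [ball_mem_nhds (0 : ℝ × ℝ) one_pos] with p hp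
  rw [mem_ball_zero_iff] at hp
  rw [one_mul, norm_pow, norm_pow, norm_norm]
  exact pow_le_pow_of_le_one (norm_nonneg _) hp.le h

theorem T9.o1 (A : T9) : (fun p => A.g1 p) =O[𝓝 (0 : ℝ × ℝ)] (fun p => ‖p‖ ^ 1) := by
  have h := (o_mono 1 0).const_mul_left A.a1
  refine (h.congr_left fun p => ?_)
  simp only [T9.g1]; ring

theorem T9.o2 (A : T9) : (fun p => A.g2 p) =O[𝓝 (0 : ℝ × ℝ)] (fun p => ‖p‖ ^ 2) := by
  have h := ((o_mono 2 0).const_mul_left A.a2).add ((o_mono 0 2).const_mul_left A.a3)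
  refine (h.congr_left fun p => ?_)
  simp only [T9.g2]; ring

theorem T9.o3 (A : T9) : (fun p => A.g3 p) =O[𝓝 (0 : ℝ × ℝ)] (fun p => ‖p‖ ^ 3) := by
  have h := ((o_mono 3 0).const_mul_left A.a4).add ((o_mono 1 2).const_mul_left A.a5)
  refine (h.congr_left fun p => ?_)
  simp only [T9.g3]; ring

theorem T9.o4 (A : T9) : (fun p => A.g4 p) =O[𝓝 (0 : ℝ × ℝ)] (fun p => ‖p‖ ^ 4) := by
  have h := (((o_mono 4 0).const_mul_left A.a6).add ((o_mono 2 2).const_mul_left A.a7)).add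
    ((o_mono 0 4).const_mul_left A.a8)
  refine (h.congr_left fun p => ?_)
  simp only [T9.g4]; ring

theorem T9.cont (A : T9) : Continuous A.ev := by
  unfold T9.ev T9.g1 T9.g2 T9.g3 T9.g4
  fun_prop

theorem o_one_of_cont {f : ℝ × ℝ → ℝ} (hf : ContinuousAt f 0) :
    f =O[𝓝 (0 : ℝ × ℝ)] (fun _ => (1 : ℝ)) :=
  hf.isBigO_one ℝ

theorem o_mul5 {f g : ℝ × ℝ → ℝ} {n m : ℕ} (hf : f =O[𝓝 (0 : ℝ × ℝ)] (fun p => ‖p‖ ^ n))
    (hg : g =O[𝓝 (0 : ℝ × ℝ)] (fun p => ‖p‖ ^ m)) (h : 5 ≤ n + m) :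
    (fun p => f p * g p) =O[𝓝 (0 : ℝ × ℝ)] (fun p => ‖p‖ ^ 5) := by
  have h1 := hf.mul hg
  have h2 : (fun p : ℝ × ℝ => ‖p‖ ^ n * ‖p‖ ^ m) =O[𝓝 (0 : ℝ × ℝ)] (fun p => ‖p‖ ^ 5) := by
    refine (o_weak h).congr_left fun p => ?_
    rw [pow_add]
  exact h1.trans h2

theorem Ap.one {f : ℝ × ℝ → ℝ} {A : T9} (h : Ap f A) : f =O[𝓝 (0 : ℝ × ℝ)] (fun _ => (1 : ℝ)) := by
  have h1 : (fun p => f p - A.ev p) =O[𝓝 (0 : ℝ × ℝ)] (fun _ => (1 : ℝ)) := by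
    refine h.trans ?_
    have h2 := o_weak (n := 5) (m := 0) (by norm_num)
    simpa using h2
  have h2 := h1.add (o_one_of_cont A.cont.continuousAt)
  refine h2.congr_left fun p => ?_
  ring

theorem Ap.mul {f g : ℝ × ℝ → ℝ} {A B C : T9} (hf : Ap f A) (hg : Ap g B) (hC : A.mul B = C) :
    Ap (fun p => f p * g p) C := by
  have h1 : (fun p => (f p - A.ev p) * g p) =O[𝓝 (0 : ℝ × ℝ)] (fun p => ‖p‖ ^ 5) := by
    have h := IsBigO.mul hf hg.one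
    simpa using h
  have h2 : (fun p => A.ev p * (g p - B.ev p)) =O[𝓝 (0 : ℝ × ℝ)] (fun p => ‖p‖ ^ 5) := by
    have h := IsBigO.mul (o_one_of_cont A.cont.continuousAt) hg
    simpa using h
  have h3 : (fun p => A.ev p * B.ev p - (A.mul B).ev p) =O[𝓝 (0 : ℝ × ℝ)] (fun p => ‖p‖ ^ 5) := by
    have h := (((((((((o_mul5 A.o1 B.o4 (by norm_num)).add (o_mul5 A.o4 B.o1 (by norm_num))).add
      (o_mul5 A.o2 B.o3 (by norm_num))).add (o_mul5 A.o3 B.o2 (by norm_num))).add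
      (o_mul5 A.o2 B.o4 (by norm_num))).add (o_mul5 A.o4 B.o2 (by norm_num))).add
      (o_mul5 A.o3 B.o3 (by norm_num))).add (o_mul5 A.o3 B.o4 (by norm_num))).add
      (o_mul5 A.o4 B.o3 (by norm_num))).add (o_mul5 A.o4 B.o4 (by norm_num))
    refine h.congr_left fun p => ?_
    simp only [T9.ev, T9.mul, T9.g1, T9.g2, T9.g3, T9.g4]
    ring
  have h4 := (h1.add h2).add h3
  rw [← hC]
  refine h4.congr_left fun p => ?_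
  ring

theorem Ap.add {f g : ℝ × ℝ → ℝ} {A B C : T9} (hf : Ap f A) (hg : Ap g B) (hC : A.add B = C) :
    Ap (fun p => f p + g p) C := by
  have h := IsBigO.add hf hg
  rw [← hC]
  refine h.congr_left fun p => ?_
  simp only [T9.ev, T9.add, T9.g1, T9.g2, T9.g3, T9.g4]
  ring

theorem Ap.smul {f : ℝ × ℝ → ℝ} {A C : T9} (c : ℝ) (hf : Ap f A) (hC : A.smul c = C) :
    Ap (fun p => c * f p) C := by
  have h := IsBigO.const_mul_left hf c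
  rw [← hC]
  refine h.congr_left fun p => ?_
  simp only [T9.ev, T9.smul, T9.g1, T9.g2, T9.g3, T9.g4]
  ring

theorem Ap.exact {f : ℝ × ℝ → ℝ} {A : T9} (h : ∀ p, f p = A.ev p) : Ap f A := by
  have h1 : (fun p => f p - A.ev p) = fun _ => (0 : ℝ) := by
    funext p; rw [h p, sub_self]
  unfold Ap
  rw [h1]
  exact isBigO_zero _ _

theorem Ap.congr {f g : ℝ × ℝ → ℝ} {A : T9} (hf : Ap f A) (h : ∀ p, f p = g p) : Ap g A := by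
  have h1 : f = g := funext h
  rwa [h1] at hf

theorem o_ev1 (A : T9) (h : A = ⟨1, 0, 0, 0, 0, 0, 0, 0, 0⟩) (p : ℝ × ℝ) : A.ev p = 1 := by
  rw [h]; simp [T9.ev, T9.g1, T9.g2, T9.g3, T9.g4]

theorem Ap.inv {f : ℝ × ℝ → ℝ} {A B : T9} (hf : Ap f A) (hc : ContinuousAt f 0) (h0 : f 0 = 1)
    (hAB : A.mul B = ⟨1, 0, 0, 0, 0, 0, 0, 0, 0⟩) : Ap (fun p => (f p)⁻¹) B := by
  have h1 : Ap (fun p => f p * B.ev p) (A.mul B) := hf.mul (Ap.exact fun _ => rfl) rfl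
  have h2 : (fun p => f p * B.ev p - 1) =O[𝓝 (0 : ℝ × ℝ)] (fun p => ‖p‖ ^ 5) :=
    IsBigO.congr_left h1 fun p => by rw [o_ev1 _ hAB]
  have hne : f 0 ≠ 0 := by rw [h0]; exact one_ne_zero
  have h3 : (fun p => (f p)⁻¹) =O[𝓝 (0 : ℝ × ℝ)] (fun _ => (1 : ℝ)) := o_one_of_cont (hc.inv₀ hne)
  have h4 : (fun p => (f p)⁻¹ * (f p * B.ev p - 1)) =O[𝓝 (0 : ℝ × ℝ)] (fun p => ‖p‖ ^ 5) := by
    have h := h3.mul h2
    simpa using h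
  have h5 : ∀ᶠ p in 𝓝 (0 : ℝ × ℝ), f p ≠ 0 := hc.eventually_ne hne
  refine (h4.neg_left).congr' ?_ EventuallyEq.rfl
  filter_upwards [h5] with p hp
  field_simp
  ring

theorem Ap.sqrtinv {f : ℝ × ℝ → ℝ} {A T : T9} (hf : Ap f A) (hc : ContinuousAt f 0) (h0 : f 0 = 1)
    (hT0 : T.a0 = 1) (hAB : (T.mul T).mul A = ⟨1, 0, 0, 0, 0, 0, 0, 0, 0⟩) : Ap (fun p => (Real.sqrt (f p))⁻¹) T := by
  have h1 : Ap (fun p => T.ev p * T.ev p * f p) ((T.mul T).mul A) :=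
    ((Ap.exact (A := T) fun _ => rfl).mul (Ap.exact fun _ => rfl) rfl).mul hf rfl
  have h2 : (fun p => T.ev p * T.ev p * f p - 1) =O[𝓝 (0 : ℝ × ℝ)] (fun p => ‖p‖ ^ 5) :=
    IsBigO.congr_left h1 fun p => by rw [o_ev1 _ hAB]
  have hT1 : T.ev 0 = 1 := by
    simp [T9.ev, T9.g1, T9.g2, T9.g3, T9.g4, hT0]
  have hr : ContinuousAt (fun p => Real.sqrt (f p)) 0 := hc.sqrt
  have hr0 : Real.sqrt (f 0) = 1 := by rw [h0, Real.sqrt_one]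
  have hc2 : ContinuousAt (fun p => (Real.sqrt (f p))⁻¹ * (T.ev p * Real.sqrt (f p) + 1)⁻¹) 0 := by
    refine ContinuousAt.mul (hr.inv₀ ?_) (ContinuousAt.inv₀ ((T.cont.continuousAt.mul hr).add continuousAt_const) ?_)
    · rw [hr0]; exact one_ne_zero
    · rw [hT1, hr0]; norm_num
  have h3 := o_one_of_cont hc2
  have h4 : (fun p => (Real.sqrt (f p))⁻¹ * (T.ev p * Real.sqrt (f p) + 1)⁻¹ * (T.ev p * T.ev p * f p - 1))
      =O[𝓝 (0 : ℝ × ℝ)] (fun p => ‖p‖ ^ 5) := by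
    have h := h3.mul h2
    simpa using h
  have h5 : ∀ᶠ p in 𝓝 (0 : ℝ × ℝ), 0 < f p := by
    apply hc.eventually_const_lt
    rw [h0]; exact one_pos
  have h6 : ∀ᶠ p in 𝓝 (0 : ℝ × ℝ), 0 < T.ev p := by
    apply T.cont.continuousAt.eventually_const_lt
    rw [hT1]; exact one_pos
  refine (h4.neg_left).congr' ?_ EventuallyEq.rfl
  filter_upwards [h5, h6] with p hp hp2
  have hs : 0 < Real.sqrt (f p) := Real.sqrt_pos.2 hp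
  have hs2 : Real.sqrt (f p) * Real.sqrt (f p) = f p := Real.mul_self_sqrt hp.le
  have hpos : 0 < T.ev p * Real.sqrt (f p) + 1 := by positivity
  have h7 : T.ev p * T.ev p * f p - 1 = (T.ev p * Real.sqrt (f p) + 1) * (T.ev p * Real.sqrt (f p) - 1) := by
    have h8 : T.ev p * T.ev p * f p = T.ev p * T.ev p * (Real.sqrt (f p) * Real.sqrt (f p)) := by rw [hs2]
    rw [h8]; ring
  rw [h7]
  field_simp
  ring

theorem ap_c (c : ℝ) : Ap (fun _ => c) ⟨c, 0, 0, 0, 0, 0, 0, 0, 0⟩ :=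
  Ap.exact fun p => by simp [T9.ev, T9.g1, T9.g2, T9.g3, T9.g4]

theorem ap_k : Ap (fun p => p.1) ⟨0, 1, 0, 0, 0, 0, 0, 0, 0⟩ :=
  Ap.exact fun p => by simp [T9.ev, T9.g1, T9.g2, T9.g3, T9.g4]

theorem ap_s2 : Ap (fun p => p.2 ^ 2) ⟨0, 0, 0, 1, 0, 0, 0, 0, 0⟩ :=
  Ap.exact fun p => by simp [T9.ev, T9.g1, T9.g2, T9.g3, T9.g4]

theorem ap_p : Ap (fun x => pq x.1 x.2) ⟨0, (-3 / 2), 0, (3 / 4), (21 / 2), (-3 / 2), 3, (-39 / 2), (15 / 16)⟩ :=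
  Ap.exact fun p => by simp only [pq, T9.ev, T9.g1, T9.g2, T9.g3, T9.g4]; ring

/-- `1/2 + pq` -/
noncomputable def fq (x : ℝ × ℝ) : ℝ := 1 / 2 + pq x.1 x.2

theorem ap_q : Ap fq ⟨(1 / 2), (-3 / 2), 0, (3 / 4), (21 / 2), (-3 / 2), 3, (-39 / 2), (15 / 16)⟩ :=
  Ap.exact fun p => by simp only [fq, pq, T9.ev, T9.g1, T9.g2, T9.g3, T9.g4]; ring

/-- `pqd / s` -/
noncomputable def fpd (x : ℝ × ℝ) : ℝ :=
  -3 * (-3 / 2 - 3 / 2 * x.2 ^ 2 + 63 / 2 * x.1 ^ 2 - 39 * x.1 * x.2 ^ 2 + 12 * x.1 ^ 3)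
    + 3 * (x.1 * (3 / 2 - 3 * x.1 + 15 / 4 * x.2 ^ 2 - 39 * x.1 ^ 2))

theorem fpd_eq (x : ℝ × ℝ) : pqd x.1 x.2 = x.2 * fpd x := by
  simp only [pqd, fpd]; ring

theorem ap_pd : Ap fpd ⟨(9 / 2), (9 / 2), (-207 / 2), (9 / 2), (-153), (513 / 4), 0, 0, 0⟩ :=
  Ap.exact fun p => by simp only [fpd, T9.ev, T9.g1, T9.g2, T9.g3, T9.g4]; ring

theorem ap_eR : Ap (fun x => eR x.1 x.2) ⟨1, (-1), 3, 0, 0, (-3 / 2), (-21), 3, 0⟩ := by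
  have h := (ap_c 1).add ((ap_q.mul ap_k (C := ⟨0, (1 / 2), (-3 / 2), 0, 0, (3 / 4), (21 / 2), (-3 / 2), 0⟩) (by ext <;> norm_num [T9.mul])).smul (-2)
    (C := ⟨0, (-1), 3, 0, 0, (-3 / 2), (-21), 3, 0⟩) (by ext <;> norm_num [T9.smul])) (C := ⟨1, (-1), 3, 0, 0, (-3 / 2), (-21), 3, 0⟩) (by ext <;> norm_num [T9.add])
  exact h.congr fun p => by simp only [eR, fq]; ring

/-- `eI / s` -/
noncomputable def feI (x : ℝ × ℝ) : ℝ := 2 * fq x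

theorem feI_eq (x : ℝ × ℝ) : eI x.1 x.2 = x.2 * feI x := by
  simp only [eI, feI, fq]; ring

theorem ap_eI : Ap feI ⟨1, (-3), 0, (3 / 2), 21, (-3), 6, (-39), (15 / 8)⟩ :=
  ap_q.smul 2 (by ext <;> norm_num [T9.smul])

/-- `eRd / s` -/
noncomputable def feRd (x : ℝ × ℝ) : ℝ := -2 * (fpd x * x.1 + -3 * fq x)

theorem feRd_eq (x : ℝ × ℝ) : eRd x.1 x.2 = x.2 * feRd x := by
  simp only [eRd, feRd, fpd_eq, fq]; ring

theorem ap_eRd : Ap feRd ⟨3, (-18), (-9), (9 / 2), 270, (-18), 324, (-747 / 2), (45 / 8)⟩ :=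
  ((ap_pd.mul ap_k (C := ⟨0, (9 / 2), (9 / 2), 0, (-207 / 2), (9 / 2), (-153), (513 / 4), 0⟩) (by ext <;> norm_num [T9.mul])).add (ap_q.smul (-3) (C := ⟨(-3 / 2), (9 / 2), 0, (-9 / 4), (-63 / 2), (9 / 2), (-9), (117 / 2), (-45 / 16)⟩)
    (by ext <;> norm_num [T9.smul])) (C := ⟨(-3 / 2), 9, (9 / 2), (-9 / 4), (-135), 9, (-162), (747 / 4), (-45 / 16)⟩) (by ext <;> norm_num [T9.add])).smul (-2)
    (by ext <;> norm_num [T9.smul])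

theorem ap_eId : Ap (fun x => eId x.1 x.2) ⟨0, 3, (-9), 9, 0, (27 / 2), 63, (-216), 9⟩ := by
  have h := ((ap_pd.mul ap_s2 (C := ⟨0, 0, 0, (9 / 2), 0, (9 / 2), 0, (-207 / 2), (9 / 2)⟩) (by ext <;> norm_num [T9.mul])).add ((ap_q.mul ap_k (C := ⟨0, (1 / 2), (-3 / 2), 0, 0, (3 / 4), (21 / 2), (-3 / 2), 0⟩)
    (by ext <;> norm_num [T9.mul])).smul 3 (C := ⟨0, (3 / 2), (-9 / 2), 0, 0, (9 / 4), (63 / 2), (-9 / 2), 0⟩)
    (by ext <;> norm_num [T9.smul])) (C := ⟨0, (3 / 2), (-9 / 2), (9 / 2), 0, (27 / 4), (63 / 2), (-108), (9 / 2)⟩) (by ext <;> norm_num [T9.add])).smul 2 (C := ⟨0, 3, (-9), 9, 0, (27 / 2), 63, (-216), 9⟩)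
    (by ext <;> norm_num [T9.smul])
  exact h.congr fun p => by simp only [eId, fpd_eq, fq]; ring

theorem ap_eN : Ap (fun x => eN x.1 x.2) ⟨1, (-2), 7, 1, (-6), (-9), (-33), 18, 3⟩ := by
  have h := (ap_eR.mul ap_eR (C := ⟨1, (-2), 7, 0, (-6), (-3), (-33), 9, 0⟩) (by ext <;> norm_num [T9.mul])).add
    (ap_s2.mul (ap_eI.mul ap_eI (C := ⟨1, (-6), 9, 3, 42, (-15), (-114), (-60), 6⟩) (by ext <;> norm_num [T9.mul])) (C := ⟨0, 0, 0, 1, 0, (-6), 0, 9, 3⟩)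
      (by ext <;> norm_num [T9.mul])) (C := ⟨1, (-2), 7, 1, (-6), (-9), (-33), 18, 3⟩) (by ext <;> norm_num [T9.add])
  exact h.congr fun p => by simp only [eN, feI_eq]; ring

/-- `2 q² - 1` -/
noncomputable def fm (x : ℝ × ℝ) : ℝ := 2 * (fq x * fq x) + -1

theorem ap_m : Ap fm ⟨(-1 / 2), (-3), (9 / 2), (3 / 2), 21, (-15 / 2), (-57), (-30), 3⟩ :=
  ((ap_q.mul ap_q (C := ⟨(1 / 4), (-3 / 2), (9 / 4), (3 / 4), (21 / 2), (-15 / 4), (-57 / 2), (-15), (3 / 2)⟩) (by ext <;> norm_num [T9.mul])).smul 2 (C := ⟨(1 / 2), (-3), (9 / 2), (3 / 2), 21, (-15 / 2), (-57), (-30), 3⟩)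
    (by ext <;> norm_num [T9.smul])).add (ap_c (-1)) (by ext <;> norm_num [T9.add])

theorem ap_rR : Ap (fun x => rR x.1 x.2) ⟨(1 / 2), (-5 / 2), (1 / 2), (5 / 4), 12, 0, (-21 / 2), (-135 / 4), (3 / 16)⟩ := by
  have h := ((ap_q.add (ap_m.mul ap_k (C := ⟨0, (-1 / 2), (-3), 0, (9 / 2), (3 / 2), 21, (-15 / 2), 0⟩) (by ext <;> norm_num [T9.mul])) (C := ⟨(1 / 2), (-2), (-3), (3 / 4), 15, 0, 24, (-27), (15 / 16)⟩)
    (by ext <;> norm_num [T9.add])).mul ap_eR (C := ⟨(1 / 2), (-5 / 2), (1 / 2), (3 / 4), 12, (-3 / 2), (-21 / 2), (-81 / 4), (15 / 16)⟩) (by ext <;> norm_num [T9.mul])).add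
    ((ap_s2.mul (ap_m.mul ap_eI (C := ⟨(-1 / 2), (-3 / 2), (27 / 2), (3 / 4), (-3), (-15), (-186), (111 / 4), (69 / 16)⟩) (by ext <;> norm_num [T9.mul])) (C := ⟨0, 0, 0, (-1 / 2), 0, (-3 / 2), 0, (27 / 2), (3 / 4)⟩)
      (by ext <;> norm_num [T9.mul])).smul (-1) (C := ⟨0, 0, 0, (1 / 2), 0, (3 / 2), 0, (-27 / 2), (-3 / 4)⟩) (by ext <;> norm_num [T9.smul])) (C := ⟨(1 / 2), (-5 / 2), (1 / 2), (5 / 4), 12, 0, (-21 / 2), (-135 / 4), (3 / 16)⟩)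
    (by ext <;> norm_num [T9.add])
  exact h.congr fun p => by simp only [rR, feI_eq, fm, fq]; ring

/-- the numerator of the derivative of the argument -/
noncomputable def fJ (x : ℝ × ℝ) : ℝ := eR x.1 x.2 * eId x.1 x.2 - eI x.1 x.2 * eRd x.1 x.2

theorem ap_J : Ap fJ ⟨0, 3, (-12), 6, 18, (63 / 2), 36, (-252), 0⟩ := by
  have h := (ap_eR.mul ap_eId (C := ⟨0, 3, (-12), 9, 18, (9 / 2), 36, (-207), 9⟩) (by ext <;> norm_num [T9.mul])).add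
    ((ap_s2.mul (ap_eI.mul ap_eRd (C := ⟨3, (-27), 45, 9, 360, (-135 / 2), (-846), (-396), 18⟩) (by ext <;> norm_num [T9.mul])) (C := ⟨0, 0, 0, 3, 0, (-27), 0, 45, 9⟩)
      (by ext <;> norm_num [T9.mul])).smul (-1) (C := ⟨0, 0, 0, (-3), 0, 27, 0, (-45), (-9)⟩) (by ext <;> norm_num [T9.smul])) (C := ⟨0, 3, (-12), 6, 18, (63 / 2), 36, (-252), 0⟩)
    (by ext <;> norm_num [T9.add])
  exact h.congr fun p => by simp only [fJ, feI_eq, feRd_eq]; ring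

theorem eN_cont : Continuous (fun x : ℝ × ℝ => eN x.1 x.2) := by
  simp only [eN, eR, eI, pq]
  fun_prop

theorem eN_zero : (fun x : ℝ × ℝ => eN x.1 x.2) 0 = 1 := by
  simp [eN, eR, eI, pq]

theorem ap_eNinv : Ap (fun x => (eN x.1 x.2)⁻¹) ⟨1, 2, (-3), (-1), (-14), 5, 38, 20, (-2)⟩ :=
  ap_eN.inv eN_cont.continuousAt eN_zero (by ext <;> norm_num [T9.mul])

theorem ap_sqinv : Ap (fun x => (Real.sqrt (eN x.1 x.2))⁻¹) ⟨1, 1, (-2), (-1 / 2), (-5), 3, 22, 6, (-9 / 8)⟩ :=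
  ap_eN.sqrtinv eN_cont.continuousAt eN_zero rfl (by ext <;> norm_num [T9.mul])

theorem ap_gam : Ap (fun x => gam x.1 x.2) ⟨(1 / 2), (-1 / 2), (-12), 4, (21 / 2), (61 / 4), 150, (-224), 2⟩ := by
  have h := (ap_rR.mul ap_sqinv (C := ⟨(1 / 2), (-2), (-3), 1, 15, 4, 24, (-41), (-1)⟩) (by ext <;> norm_num [T9.mul])).mul
    ((ap_c 1).add (ap_J.mul ap_eNinv (C := ⟨0, 3, (-6), 6, (-15), (81 / 2), 66, (-180), (-6)⟩) (by ext <;> norm_num [T9.mul])) (C := ⟨1, 3, (-6), 6, (-15), (81 / 2), 66, (-180), (-6)⟩)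
      (by ext <;> norm_num [T9.add])) (C := ⟨(1 / 2), (-1 / 2), (-12), 4, (21 / 2), (61 / 4), 150, (-224), 2⟩) (by ext <;> norm_num [T9.mul])
  exact h.congr fun p => by simp only [gam, fJ, div_eq_mul_inv]

/-- Project LT, module QU2. -/
theorem hQU2 : StQu2 := by
  have h := ap_gam
  obtain ⟨c, hc0, hc⟩ := IsBigO.exists_pos h
  rw [IsBigOWith] at hc
  obtain ⟨r, hr0, hr⟩ := Metric.eventually_nhds_iff.1 hc
  refine ⟨c, r / 2, hc0, by positivity, fun a k s ha hk hs => ?_⟩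
  have ha0 : 0 ≤ a := (abs_nonneg k).trans hk
  have hn : ‖((k, s) : ℝ × ℝ)‖ ≤ a := by
    rw [Prod.norm_mk]
    exact max_le hk hs
  have h1 := hr (y := ((k, s) : ℝ × ℝ)) (by rw [dist_zero_right]; linarith)
  have h2 : gam k s - tgam k s = gam k s - T9.ev ⟨(1 / 2), (-1 / 2), (-12), 4, (21 / 2), (61 / 4), 150, (-224), 2⟩ (k, s) := by
    simp only [tgam, T9.ev, T9.g1, T9.g2, T9.g3, T9.g4]; ring
  rw [h2, ← Real.norm_eq_abs]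
  refine h1.trans ?_
  rw [norm_pow, norm_norm]
  exact mul_le_mul_of_nonneg_left (pow_le_pow_left₀ (norm_nonneg _) hn 5) hc0.le

end Pool.Agent.Helper47.LT
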